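import Mathlib
import Pool.Agent.H33.CB

set_option autoImplicit false

namespace Pool.Agent.Results.MP_7b724e_an.NegativeExponents

open Matrix MeasureTheory Pool.Agent.H33.CB
open scoped ComplexOrder

variable {n : ℕ}

/-- A^q by the functional calculus. -/
noncomputable def pw (A : Matrix (Fin n) (Fin n) ℂ) (q : ℝ) : Matrix (Fin n) (Fin n) ℂ :=
  cfc (fun x : ℝ => x ^ q) A

lemma tangent (q : ℝ) (hq : q < 0) (c x : ℝ) (hc : 0 < c) (hx : 0 < x) :
    c ^ q * (1 + q * (x / c - 1)) ≤ x ^ q := by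
  have h1 : x ^ q = c ^ q * Real.exp (q * Real.log (x / c)) := by
    rw [Real.rpow_def_of_pos hx, Real.rpow_def_of_pos hc, ← Real.exp_add,
      Real.log_div hx.ne' hc.ne']
    congr 1; ring
  rw [h1]
  apply mul_le_mul_of_nonneg_left _ (Real.rpow_nonneg hc.le _)
  have := Real.add_one_le_exp (q * Real.log (x / c))
  have := Real.log_le_sub_one_of_pos (div_pos hx hc)
  nlinarith

lemma weights {A : Matrix (Fin n) (Fin n) ℂ} (hA : A.IsHermitian) (U : Matrix (Fin n) (Fin n) ℂ)
    (h1 : Uᴴ * U = 1) (h2 : U * Uᴴ = 1) : ∃ w : Fin n → Fin n → ℝ, (∀ i j, 0 ≤ w i j) ∧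
      (∀ i, ∑ j, w i j = 1) ∧ (∀ j, ∑ i, w i j = 1) ∧
      ∀ i, ((Uᴴ * A * U) i i).re = ∑ j, w i j * hA.eigenvalues j := by
  obtain ⟨V, v1, v2, v3, -⟩ := spec hA
  have a : (Vᴴ * U)ᴴ * (Vᴴ * U) = 1 := by
    rw [conjTranspose_mul, conjTranspose_conjTranspose, Matrix.mul_assoc, ← Matrix.mul_assoc V, v2,
      Matrix.one_mul, h1]
  have b : (Vᴴ * U) * (Vᴴ * U)ᴴ = 1 := mul_eq_one_comm.1 a
  have c : Uᴴ * A * U = (Vᴴ * U)ᴴ * diagonal (fun i => (hA.eigenvalues i : ℂ)) * (Vᴴ * U) := by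
    conv_lhs => rw [v3]
    simp only [conjTranspose_mul, conjTranspose_conjTranspose, Matrix.mul_assoc]
  rw [c]
  generalize Vᴴ * U = W at a b
  refine ⟨fun i j => ‖W j i‖ ^ 2, fun _ _ => by positivity, fun i => ?_, fun j => ?_, fun i => ?_⟩
  · have := congrArg Complex.re (congrFun (congrFun a i) i)
    simpa [Matrix.mul_apply, Complex.conj_mul', ← Complex.ofReal_pow] using this
  · have := congrArg Complex.re (congrFun (congrFun b j) j)
    simpa [Matrix.mul_apply, Complex.mul_conj', ← Complex.ofReal_pow] using this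
  · rw [Matrix.mul_apply, Complex.re_sum]
    apply Finset.sum_congr rfl
    intro j _
    rw [Matrix.mul_diagonal, conjTranspose_apply, mul_right_comm, Complex.star_def,
      Complex.conj_mul', ← Complex.ofReal_pow, ← Complex.ofReal_mul, Complex.ofReal_re]

lemma convex (q : ℝ) (hq : q < 0) {A B : Matrix (Fin n) (Fin n) ℂ} (hA : A.PosDef) (hB : B.PosDef) :
    ∑ i, (hA.add hB).1.eigenvalues i ^ q ≤
      2 ^ q / 2 * (∑ i, hA.1.eigenvalues i ^ q + ∑ i, hB.1.eigenvalues i ^ q) := by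
  obtain ⟨U, h1, h2, h3, -⟩ := spec (hA.add hB).1
  obtain ⟨w, w0, w1, w2, w3⟩ := weights hA.1 U h1 h2
  obtain ⟨v, v0, v1, v2, v3⟩ := weights hB.1 U h1 h2
  have e : ∀ i, (hA.add hB).1.eigenvalues i =
      ∑ j, w i j * hA.1.eigenvalues j + ∑ j, v i j * hB.1.eigenvalues j := by
    intro i
    have : Uᴴ * (A + B) * U = diagonal fun i => ((hA.add hB).1.eigenvalues i : ℂ) := by
      conv_lhs => rw [h3]
      simp only [Matrix.mul_assoc, h1, Matrix.mul_one]
      rw [← Matrix.mul_assoc, h1, Matrix.one_mul]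
    have := congrArg Complex.re (congrFun (congrFun this i) i)
    rw [Matrix.mul_add, Matrix.add_mul, Matrix.add_apply, Complex.add_re, w3, v3] at this
    simpa using this.symm
  have k : ∀ i, (hA.add hB).1.eigenvalues i ^ q ≤ 2 ^ q / 2 *
      (∑ j, w i j * hA.1.eigenvalues j ^ q + ∑ j, v i j * hB.1.eigenvalues j ^ q) := by
    intro i
    have p := (hA.add hB).eigenvalues_pos i
    have ei := e i
    set l := (hA.add hB).1.eigenvalues i
    have hc : 0 < l / 2 := by positivity
    have a1 := Finset.sum_le_sum fun j (_ : j ∈ Finset.univ) =>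
      mul_le_mul_of_nonneg_left (tangent q hq _ _ hc (hA.eigenvalues_pos j)) (w0 i j)
    have a2 := Finset.sum_le_sum fun j (_ : j ∈ Finset.univ) =>
      mul_le_mul_of_nonneg_left (tangent q hq _ _ hc (hB.eigenvalues_pos j)) (v0 i j)
    have r : ∀ (w x : Fin n → ℝ), ∑ j, w j = 1 →
        ∑ j, w j * ((l / 2) ^ q * (1 + q * (x j / (l / 2) - 1))) =
        (l / 2) ^ q * (1 + q * ((∑ j, w j * x j) / (l / 2) - 1)) := by
      intro w x h
      have : ∀ j, w j * ((l / 2) ^ q * (1 + q * (x j / (l / 2) - 1))) =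
          (l / 2) ^ q * (1 - q) * w j + (l / 2) ^ q * q / (l / 2) * (w j * x j) := fun j => by ring
      simp only [this, Finset.sum_add_distrib, ← Finset.mul_sum, h]; ring
    rw [r _ _ (w1 i)] at a1
    rw [r _ _ (v1 i)] at a2
    have s : (∑ j, w i j * hA.1.eigenvalues j) / (l / 2) +
        (∑ j, v i j * hB.1.eigenvalues j) / (l / 2) = 2 := by
      rw [← add_div, ← ei]; field_simp
    have t : l ^ q = 2 ^ q * (l / 2) ^ q := by
      rw [← Real.mul_rpow (by norm_num) hc.le]; congr 1; ring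
    have u : 2 * (l / 2) ^ q ≤ ∑ j, w i j * hA.1.eigenvalues j ^ q +
        ∑ j, v i j * hB.1.eigenvalues j ^ q := by
      refine le_trans (le_of_eq ?_) (add_le_add a1 a2)
      linear_combination (-(l / 2) ^ q * q) * s
    have : (0 : ℝ) < 2 ^ q := by positivity
    rw [t]; nlinarith
  refine (Finset.sum_le_sum fun i _ => k i).trans (le_of_eq ?_)
  rw [← Finset.mul_sum, Finset.sum_add_distrib, Finset.sum_comm, Finset.sum_comm (f := fun i j =>
    v i j * hB.1.eigenvalues j ^ q)]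
  simp only [← Finset.sum_mul, w2, v2, one_mul]

lemma prod_low {κ : Type} [Fintype κ] (a : Fin n → ℝ) (ha : ∀ i, 0 < a i) (s : ℝ) (f : κ → Fin n)
    (hf : Function.Injective f) :
    Real.exp (Fintype.card κ * s - ∑ j, max (s - Real.log (a j)) 0) ≤ ∏ t, a (f t) := by
  have e : ∏ t, a (f t) = Real.exp (∑ t, Real.log (a (f t))) := by
    rw [Real.exp_sum]; simp [Real.exp_log (ha _)]
  rw [e, Real.exp_le_exp]
  have h1 : ∑ t, max (s - Real.log (a (f t))) 0 ≤ ∑ j, max (s - Real.log (a j)) 0 := by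
    classical
    rw [← Finset.sum_image (s := Finset.univ) (g := f)
      (f := fun j => max (s - Real.log (a j)) 0) (fun _ _ _ _ h => hf h)]
    exact Finset.sum_le_sum_of_subset_of_nonneg (Finset.subset_univ _) fun _ _ _ => le_max_right _ _
  have h2 := Finset.sum_le_sum fun t (_ : t ∈ Finset.univ) =>
    le_max_left (s - Real.log (a (f t))) 0
  simp only [Finset.sum_sub_distrib, Finset.sum_const, Finset.card_univ, nsmul_eq_mul] at h2
  linarith

lemma horn {A B R : Matrix (Fin n) (Fin n) ℂ} (hA : A.PosDef) (hB : B.PosDef) (hR : Rᴴ = R)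
    (hRR : R * R = A) (hM : (R * B * R).PosDef) (s : ℝ) :
    ∑ i, max (s - Real.log (hM.1.eigenvalues i) / 2) 0 ≤
      1 / 2 * (∑ j, max (s - Real.log (hA.1.eigenvalues j)) 0 +
        ∑ j, max (s - Real.log (hB.1.eigenvalues j)) 0) := by
  obtain ⟨U, h1, -, h3, -⟩ := spec hM.1
  have mp := hM.eigenvalues_pos
  set μ := hM.1.eigenvalues
  let S := Finset.univ.filter fun i => Real.log (μ i) / 2 < s
  let V : Matrix (Fin n) S ℂ := U.submatrix id (↑)
  have sub : ∀ X : Matrix (Fin n) (Fin n) ℂ, Vᴴ * X * V = (Uᴴ * X * U).submatrix (↑) (↑) := by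
    intro X; ext a b; simp [V, Matrix.mul_apply]
  have v1 : Vᴴ * V = 1 := by
    have := sub 1
    rwa [Matrix.mul_one, Matrix.mul_one, h1, submatrix_one _ Subtype.val_injective] at this
  have v2 : Vᴴ * (R * B * R) * V = diagonal fun i : S => (μ i : ℂ) := by
    rw [sub]
    conv_lhs => rw [h3]
    simp only [Matrix.mul_assoc, h1, Matrix.mul_one]
    rw [← Matrix.mul_assoc, h1, Matrix.one_mul, submatrix_diagonal _ _ Subtype.val_injective]
    rfl
  have l1 := low hA.1 V _ (prod_low _ hA.eigenvalues_pos s)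
  have l2 := low hB.1 (R * V) _ (prod_low _ hB.eigenvalues_pos s)
  have e1 : (R * V)ᴴ * (R * V) = Vᴴ * A * V := by
    rw [conjTranspose_mul, hR, ← hRR]; simp only [Matrix.mul_assoc]
  have e2 : (R * V)ᴴ * B * (R * V) = Vᴴ * (R * B * R) * V := by
    rw [conjTranspose_mul, hR]; simp only [Matrix.mul_assoc]
  rw [v1, det_one, Complex.one_re, mul_one] at l1
  rw [e1, e2, v2, det_diagonal, ← Complex.ofReal_prod, Complex.ofReal_re] at l2
  have l3 := (mul_le_mul_of_nonneg_left l1 (Real.exp_pos _).le).trans l2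
  have e : ∏ t : S, μ t = Real.exp (∑ t : S, Real.log (μ t)) := by
    rw [Real.exp_sum]; simp [Real.exp_log (mp _)]
  rw [← Real.exp_add, e, Real.exp_le_exp] at l3
  have e3 : ∑ i, max (s - Real.log (μ i) / 2) 0 = ∑ t : S, (s - Real.log (μ t) / 2) := by
    rw [Finset.sum_coe_sort S fun i => s - Real.log (μ i) / 2, Finset.sum_filter]
    apply Finset.sum_congr rfl
    intro i _
    split_ifs with h
    · exact max_eq_left (by linarith)
    · exact max_eq_right (by linarith)
  rw [e3, Finset.sum_sub_distrib, ← Finset.sum_div]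
  simp only [Finset.sum_const, Finset.card_univ, nsmul_eq_mul]
  linarith

theorem result (q : ℝ) (_hq2 : -2 < q) (hq : q < 0) (n : ℕ) (A B : Matrix (Fin n) (Fin n) ℂ)
    (hA : A.PosDef) (hB : B.PosDef) :
    (pw (A + B) q).trace.re ≤ (pw A q).trace.re + (pw B q).trace.re +
      (2 ^ q - 2) * (pw (pw A (1 / 2) * B * pw A (1 / 2)) (q / 2)).trace.re := by
  obtain ⟨U, h1, h2, h3, h4⟩ := spec hA.1
  have r := h4 fun x => x ^ (1 / 2 : ℝ)
  change pw A (1 / 2) = _ at r
  set R := pw A (1 / 2)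
  have hR : Rᴴ = R := by
    rw [r]; simp [conjTranspose_mul, Matrix.mul_assoc, diagonal_conjTranspose, Pi.star_def]
  have hRR : R * R = A := by
    conv_rhs => rw [h3]
    rw [r]
    simp only [Matrix.mul_assoc]
    rw [← Matrix.mul_assoc Uᴴ, h1, Matrix.one_mul, ← Matrix.mul_assoc (diagonal _),
      diagonal_mul_diagonal]
    congr 3
    funext i
    rw [← Complex.ofReal_mul, ← Real.rpow_add (hA.eigenvalues_pos i)]; norm_num
  have hM : (R * B * R).PosDef := by
    have u : IsUnit R := isUnit_of_mul_isUnit_left (hRR ▸ hA.isUnit)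
    have := hB.conjTranspose_mul_mul_same (B := R) (mulVec_injective_of_isUnit u)
    rwa [hR] at this
  have c := convex q hq hA hB
  have key : ∑ i, hM.1.eigenvalues i ^ (q / 2) ≤
      1 / 2 * (∑ i, hA.1.eigenvalues i ^ q + ∑ i, hB.1.eigenvalues i ^ q) := by
    have S : ∀ x : Fin n → ℝ,
        Integrable (fun s => (∑ i, max (s - x i) 0) * (q ^ 2 * Real.exp (q * s))) ∧
        ∫ s, (∑ i, max (s - x i) 0) * (q ^ 2 * Real.exp (q * s)) = ∑ i, Real.exp (q * x i) := by
      intro x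
      simp only [Finset.sum_mul]
      exact ⟨integrable_finset_sum _ fun i _ => (hinge q hq _).1, by
        rw [integral_finset_sum _ fun i _ => (hinge q hq _).1]; simp only [(hinge q hq _).2]⟩
    have e0 : ∀ x : ℝ, 0 < x → x ^ q = Real.exp (q * Real.log x) := fun x hx => by
      rw [Real.rpow_def_of_pos hx, mul_comm]
    have e1 : ∀ x : ℝ, 0 < x → x ^ (q / 2) = Real.exp (q * (Real.log x / 2)) := fun x hx => by
      rw [Real.rpow_def_of_pos hx]; congr 1; ring
    simp only [e0 _ (hA.eigenvalues_pos _), e0 _ (hB.eigenvalues_pos _),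
      e1 _ (hM.eigenvalues_pos _)]
    rw [← (S _).2, ← (S _).2, ← (S _).2, ← integral_add (S _).1 (S _).1, ← integral_const_mul]
    refine integral_mono (S _).1 (((S _).1.add (S _).1).const_mul _) fun s => ?_
    have := mul_le_mul_of_nonneg_right (horn hA hB hR hRR hM s)
      (by positivity : 0 ≤ q ^ 2 * Real.exp (q * s))
    simp only
    linarith
  simp only [pw]
  rw [tr_cfc (hA.add hB).1, tr_cfc hA.1, tr_cfc hB.1, tr_cfc hM.1]
  have : (2 : ℝ) ^ q < 1 := Real.rpow_lt_one_of_one_lt_of_neg one_lt_two hq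
  nlinarith

end Pool.Agent.Results.MP_7b724e_an.NegativeExponents
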